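import Pool.Agent.W200.MR.Stm

open Finset Filter Topology MeasureTheory
open Pool.Agent.W200.MR

namespace Pool.Agent.W236.MR

lemma pw_add (s t : ℝ) (n : ℕ) : pw (s + t) n = pw s n * pw t n := by
  unfold pw
  rw [← Complex.exp_add]
  congr 1
  push_cast
  ring

lemma norm_pw (s : ℝ) (n : ℕ) : ‖pw s n‖ = 1 := by
  unfold pw
  exact Complex.norm_exp_ofReal_mul_I _

lemma SA_eq (s t : ℝ) (a b N : ℕ) :
    SA (s + t) a b N = ∑ n ∈ Icc 1 N, (if n % a = b % a then pw s n else 0) * pw t n := by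
  unfold SA AP
  rw [Finset.sum_filter]
  apply Finset.sum_congr rfl
  intro n _
  split_ifs
  · exact pw_add s t n
  · simp

lemma cont_SA (s : ℝ) (a b N : ℕ) : Continuous (fun t : ℝ => SA (s + t) a b N) := by
  unfold SA pw
  fun_prop

lemma int_SA (h : S_MV2) (s : ℝ) (a b N : ℕ) (S : ℝ) (hN : 1 ≤ N) (hS : 1 ≤ S) :
    ∫ t in S..(2 * S), ‖SA (s + t) a b N‖ ^ 2 / (N : ℝ) ^ 3 ≤
      S * (1 / (N : ℝ) ^ 2) + 4 * ((1 + Real.log N) / N) := by
  have h1 := h (fun n => if n % a = b % a then pw s n else 0) (by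
    intro n
    split_ifs
    · rw [norm_pw]
    · simp) N S hN hS
  have hN0 : (0 : ℝ) < N := by exact_mod_cast hN
  have h2 : (fun t : ℝ => ‖SA (s + t) a b N‖ ^ 2 / (N : ℝ) ^ 3) =
      fun t : ℝ => ‖∑ n ∈ Icc 1 N, (if n % a = b % a then pw s n else 0) * pw t n‖ ^ 2 / (N : ℝ) ^ 3 := by
    funext t
    rw [SA_eq]
  rw [h2, intervalIntegral.integral_div]
  rw [div_le_iff₀ (by positivity)]
  refine h1.trans (le_of_eq ?_)
  field_simp

lemma sum_inv_sq (Y M : ℕ) (hY : 1 ≤ Y) : ∑ N ∈ Icc Y M, 1 / (N : ℝ) ^ 2 ≤ 2 / (Y : ℝ) := by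
  have hY0 : (0 : ℝ) < Y := by exact_mod_cast hY
  have key : ∀ k : ℕ, ∑ N ∈ Ico Y (Y + k), 1 / (N : ℝ) ^ 2 ≤ 2 / (Y : ℝ) - 2 / ((Y : ℝ) + k) := by
    intro k
    induction k with
    | zero => simp
    | succ k ih =>
      rw [← Nat.add_assoc, Finset.sum_Ico_succ_top (by omega)]
      have hk : (1 : ℝ) ≤ (Y : ℝ) + k := by
        have : (1 : ℝ) ≤ Y := by exact_mod_cast hY
        have : (0 : ℝ) ≤ k := Nat.cast_nonneg k
        linarith
      have h3 : 1 / (((Y + k : ℕ) : ℝ)) ^ 2 ≤ 2 / ((Y : ℝ) + k) - 2 / ((Y : ℝ) + ((k + 1 : ℕ) : ℝ)) := by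
        push_cast
        have e : 2 / ((Y : ℝ) + k) - 2 / ((Y : ℝ) + (k + 1)) =
            2 / (((Y : ℝ) + k) * ((Y : ℝ) + k + 1)) := by
          have : (Y : ℝ) + k ≠ 0 := by linarith
          have : (Y : ℝ) + k + 1 ≠ 0 := by linarith
          have : (Y : ℝ) + (k + 1) ≠ 0 := by linarith
          field_simp
          ring
        rw [e, div_le_div_iff₀ (by positivity) (by positivity)]
        nlinarith
      linarith
  rcases Nat.lt_or_ge M Y with hM | hM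
  · rw [Finset.Icc_eq_empty (by omega)]
    rw [Finset.sum_empty]
    positivity
  · have h4 := key (M + 1 - Y)
    have h5 : Icc Y M = Ico Y (Y + (M + 1 - Y)) := by
      ext x
      simp only [mem_Icc, mem_Ico]
      omega
    rw [h5]
    refine h4.trans ?_
    have : (0 : ℝ) ≤ 2 / ((Y : ℝ) + ((M + 1 - Y : ℕ) : ℝ)) := by positivity
    linarith

lemma sum_log (Y M : ℕ) (hY : 1 ≤ Y) :
    ∑ N ∈ Icc Y M, (1 + Real.log N) / N ≤ (1 + Real.log M) ^ 2 := by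
  have hM0 : (0 : ℝ) ≤ Real.log M := Real.log_natCast_nonneg M
  have h1 : ∑ N ∈ Icc Y M, (1 + Real.log N) / N ≤ ∑ N ∈ Icc 1 M, (1 + Real.log M) * (N : ℝ)⁻¹ := by
    refine (Finset.sum_le_sum (g := fun N : ℕ => (1 + Real.log M) * (N : ℝ)⁻¹) ?_).trans ?_
    · intro N hN
      rw [mem_Icc] at hN
      have hN0 : (0 : ℝ) < N := by
        have : 0 < N := by omega
        exact_mod_cast this
      rw [div_eq_mul_inv]
      apply mul_le_mul_of_nonneg_right _ (by positivity)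
      have : Real.log N ≤ Real.log M := Real.log_le_log hN0 (by exact_mod_cast hN.2)
      linarith
    · apply Finset.sum_le_sum_of_subset_of_nonneg
      · intro x hx
        rw [mem_Icc] at hx ⊢
        omega
      · intro x _ _
        positivity
  refine h1.trans ?_
  rw [← Finset.mul_sum, pow_two]
  apply mul_le_mul_of_nonneg_left _ (by positivity)
  have h2 := harmonic_le_one_add_log M
  rw [harmonic_eq_sum_Icc] at h2
  push_cast at h2
  exact h2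

lemma int_Q2 (h : S_MV2) (A Y X : ℕ) (s S : ℝ) (hY : 1 ≤ Y) (hS : 1 ≤ S) :
    ∫ t in S..(2 * S), Q2 A Y X s t ≤
      (A : ℝ) ^ 2 * (S * (2 / Y) + 4 * (1 + Real.log ((2 * X : ℕ) : ℝ)) ^ 2) := by
  have hint : ∀ a b N : ℕ, IntervalIntegrable (fun t : ℝ => ‖SA (s + t) a b N‖ ^ 2 / (N : ℝ) ^ 3)
      volume S (2 * S) := by
    intro a b N
    apply Continuous.intervalIntegrable
    exact ((cont_SA s a b N).norm.pow 2).div_const _
  have hint2 : ∀ a b : ℕ, IntervalIntegrable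
      (fun t : ℝ => ∑ N ∈ Icc Y (2 * X), ‖SA (s + t) a b N‖ ^ 2 / (N : ℝ) ^ 3) volume S (2 * S) := by
    intro a b
    apply Continuous.intervalIntegrable
    exact continuous_finsetSum _ (fun N _ => ((cont_SA s a b N).norm.pow 2).div_const _)
  have hint3 : ∀ a : ℕ, IntervalIntegrable
      (fun t : ℝ => ∑ b ∈ range a, ∑ N ∈ Icc Y (2 * X), ‖SA (s + t) a b N‖ ^ 2 / (N : ℝ) ^ 3)
      volume S (2 * S) := by
    intro a
    apply Continuous.intervalIntegrable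
    exact continuous_finsetSum _ (fun b _ =>
      continuous_finsetSum _ (fun N _ => ((cont_SA s a b N).norm.pow 2).div_const _))
  have e1 : ∫ t in S..(2 * S), Q2 A Y X s t =
      ∑ a ∈ Icc 1 A, ∑ b ∈ range a, ∑ N ∈ Icc Y (2 * X),
        ∫ t in S..(2 * S), ‖SA (s + t) a b N‖ ^ 2 / (N : ℝ) ^ 3 := by
    unfold Q2
    rw [intervalIntegral.integral_finsetSum (fun a _ => hint3 a)]
    apply Finset.sum_congr rfl
    intro a _
    rw [intervalIntegral.integral_finsetSum (fun b _ => hint2 a b)]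
    apply Finset.sum_congr rfl
    intro b _
    rw [intervalIntegral.integral_finsetSum (fun N _ => hint a b N)]
  rw [e1]
  set K : ℝ := S * (2 / Y) + 4 * (1 + Real.log ((2 * X : ℕ) : ℝ)) ^ 2 with hK
  have hK0 : 0 ≤ K := by positivity
  have hb : ∀ a b : ℕ, ∑ N ∈ Icc Y (2 * X),
        ∫ t in S..(2 * S), ‖SA (s + t) a b N‖ ^ 2 / (N : ℝ) ^ 3 ≤ K := by
    intro a b
    have h1 : ∑ N ∈ Icc Y (2 * X), ∫ t in S..(2 * S), ‖SA (s + t) a b N‖ ^ 2 / (N : ℝ) ^ 3 ≤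
        ∑ N ∈ Icc Y (2 * X), (S * (1 / (N : ℝ) ^ 2) + 4 * ((1 + Real.log N) / N)) := by
      apply Finset.sum_le_sum
      intro N hN
      rw [mem_Icc] at hN
      exact int_SA h s a b N S (by omega) hS
    refine h1.trans ?_
    rw [Finset.sum_add_distrib, ← Finset.mul_sum, ← Finset.mul_sum, hK]
    apply add_le_add
    · exact mul_le_mul_of_nonneg_left (sum_inv_sq Y (2 * X) hY) (by linarith)
    · exact mul_le_mul_of_nonneg_left (sum_log Y (2 * X) hY) (by norm_num)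
  calc ∑ a ∈ Icc 1 A, ∑ b ∈ range a, ∑ N ∈ Icc Y (2 * X),
        ∫ t in S..(2 * S), ‖SA (s + t) a b N‖ ^ 2 / (N : ℝ) ^ 3
      ≤ ∑ a ∈ Icc 1 A, ∑ b ∈ range a, K :=
        Finset.sum_le_sum (fun a _ => Finset.sum_le_sum (fun b _ => hb a b))
    _ ≤ ∑ a ∈ Icc 1 A, (A : ℝ) * K := by
        apply Finset.sum_le_sum
        intro a ha
        rw [mem_Icc] at ha
        rw [Finset.sum_const, card_range, nsmul_eq_mul]
        apply mul_le_mul_of_nonneg_right _ hK0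
        exact_mod_cast ha.2
    _ = (A : ℝ) ^ 2 * K := by
        rw [Finset.sum_const, Nat.card_Icc, nsmul_eq_mul]
        simp
        ring

lemma ev_small (e : ℝ) (he : 0 < e) : ∀ᶠ S : ℝ in atTop,
    (1 / S) * (4 * (1 + Real.log ((2 * ⌈S⌉₊ ^ 2 : ℕ) : ℝ)) ^ 2) ≤ e := by
  have h1 := (Real.isLittleO_pow_log_id_atTop (n := 2)).bound (show (0 : ℝ) < e / 144 by positivity)
  filter_upwards [h1, eventually_ge_atTop (1 : ℝ), eventually_ge_atTop (Real.exp 1)] with S hS1 hS2 hS3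
  have hS0 : (0 : ℝ) < S := by linarith
  have hL : 1 ≤ Real.log S := by
    rw [Real.le_log_iff_exp_le hS0]
    exact hS3
  have hc : ((⌈S⌉₊ : ℕ) : ℝ) ≤ 2 * S := by
    have := Nat.ceil_lt_add_one hS0.le
    linarith
  have hc0 : (0 : ℝ) < ((⌈S⌉₊ : ℕ) : ℝ) := by
    have : 0 < ⌈S⌉₊ := Nat.ceil_pos.mpr hS0
    exact_mod_cast this
  have h2 : Real.log ((2 * ⌈S⌉₊ ^ 2 : ℕ) : ℝ) ≤ 3 + 2 * Real.log S := by
    have h3 : ((2 * ⌈S⌉₊ ^ 2 : ℕ) : ℝ) ≤ 8 * S ^ 2 := by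
      push_cast
      nlinarith
    have h4 : Real.log ((2 * ⌈S⌉₊ ^ 2 : ℕ) : ℝ) ≤ Real.log (8 * S ^ 2) := by
      apply Real.log_le_log _ h3
      push_cast
      positivity
    have h5 : Real.log (8 * S ^ 2) = Real.log 8 + 2 * Real.log S := by
      rw [Real.log_mul (by norm_num) (by positivity), Real.log_pow]
      push_cast
      ring
    have h6 : Real.log 8 ≤ 3 := by
      have h7 : Real.log 8 = 3 * Real.log 2 := by
        rw [show (8 : ℝ) = 2 ^ (3 : ℕ) by norm_num, Real.log_pow]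
        push_cast
        ring
      have h8 := Real.log_two_lt_d9
      linarith
    linarith
  have h0 : 0 ≤ Real.log ((2 * ⌈S⌉₊ ^ 2 : ℕ) : ℝ) := Real.log_natCast_nonneg _
  have h9 : (1 + Real.log ((2 * ⌈S⌉₊ ^ 2 : ℕ) : ℝ)) ^ 2 ≤ 36 * Real.log S ^ 2 := by
    have : 1 + Real.log ((2 * ⌈S⌉₊ ^ 2 : ℕ) : ℝ) ≤ 6 * Real.log S := by linarith
    nlinarith
  simp only [id, Real.norm_eq_abs] at hS1
  rw [abs_of_nonneg (by positivity), abs_of_pos hS0] at hS1
  rw [one_div, inv_mul_le_iff₀ hS0]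
  nlinarith

theorem t_EX3 : S_MV2 → S_EX3 := by
  intro h A Y s e hY he
  filter_upwards [ev_small e he, eventually_ge_atTop (1 : ℝ)] with S hS1 hS2
  have hS0 : (0 : ℝ) < S := by linarith
  have h1 := int_Q2 h A Y (⌈S⌉₊ ^ 2) s S hY hS2
  have h2 : (1 / S) * ∫ t in S..(2 * S), Q2 A Y (⌈S⌉₊ ^ 2) s t ≤
      (1 / S) * ((A : ℝ) ^ 2 * (S * (2 / Y) + 4 * (1 + Real.log ((2 * ⌈S⌉₊ ^ 2 : ℕ) : ℝ)) ^ 2)) :=
    mul_le_mul_of_nonneg_left h1 (by positivity)
  refine h2.trans ?_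
  have h3 : (1 / S) * ((A : ℝ) ^ 2 * (S * (2 / Y) + 4 * (1 + Real.log ((2 * ⌈S⌉₊ ^ 2 : ℕ) : ℝ)) ^ 2)) =
      (A : ℝ) ^ 2 * (2 / Y + (1 / S) * (4 * (1 + Real.log ((2 * ⌈S⌉₊ ^ 2 : ℕ) : ℝ)) ^ 2)) := by
    field_simp
  rw [h3]
  apply mul_le_mul_of_nonneg_left _ (by positivity)
  linarith

end Pool.Agent.W236.MR
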